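import Pool.Agent.Q184.PT.Sgn

set_option autoImplicit false
set_option linter.unusedSectionVars false

/-!
# Tangles seen through their double branched covers
-/

namespace Pool.Agent.Q184.PT

open Pool.Agent.Y479.LS

/-- A tangle with the four regions `west` (white), `north` (black), `east` (white), `south` (black) at
its boundary circle, seen through its double branched cover: the fundamental group `G`, and its elements
`g` (which belongs to an arc from `west` to `east`) and `A` (which belongs to an arc from `north` to
`south`). -/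
structure Box where
  G : Type
  grp : Group G
  g : G
  A : G

attribute [instance] Box.grp

namespace Box

/-- The rational tangle `p / q`: `g = z ^ q` and `A = z ^ p` in an infinite cyclic group. -/
def rat (p q : ℕ) : Box where
  G := Multiplicative ℤ
  grp := inferInstance
  g := Multiplicative.ofAdd (q : ℤ)
  A := Multiplicative.ofAdd (p : ℤ)

/-- The mirror image. -/
def mirror (U : Box) : Box := ⟨U.G, U.grp, U.g, U.A⁻¹⟩

/-- The colours are exchanged. -/
def swap (U : Box) : Box := ⟨U.G, U.grp, U.A, U.g⟩

/-- Words in the elements of `Y` and in the elements of the groups of the boxes `U i`. -/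
abbrev Word (Y : Type) {I : Type} (U : I → Box) : Type := FreeGroup (Y ⊕ Σ i, (U i).G)

section amalgam

variable {Y I : Type} (U : I → Box)

/-- the letter for an element of `Y` -/
def letter (y : Y) : Word Y U := FreeGroup.of (Sum.inl y)

/-- the letter for an element of the group of `U i` -/
def elt (i : I) (x : (U i).G) : Word Y U := FreeGroup.of (Sum.inr ⟨i, x⟩)

/-- The multiplication tables of the groups of the boxes `U i`. -/
def tables : Set (Word Y U) :=
  {r | ∃ (i : I) (x y : (U i).G), r = elt U i x * elt U i y * (elt U i (x * y))⁻¹}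

variable {U}

/-- The group generated by `Y` and the groups of the boxes `U i` with the relators `R`. -/
def Am (R : Set (Word Y U)) : Type := PresentedGroup (tables U ∪ R)

instance (R : Set (Word Y U)) : Group (Am R) :=
  inferInstanceAs (Group (PresentedGroup (tables U ∪ R)))

/-- the element of the group that is given by a word -/
def val (R : Set (Word Y U)) : Word Y U →* Am R := PresentedGroup.mk (tables U ∪ R)

variable {R : Set (Word Y U)}

theorem Am.rel {r : Word Y U} (h : r ∈ R) : val R r = 1 := PresentedGroup.one_of_mem (Or.inr h)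

/-- the canonical homomorphisms -/
def Am.emb (i : I) : (U i).G →* Am R :=
  MonoidHom.mk' (fun x => val R (elt U i x)) (by
    intro x y
    have h : val R (elt U i x * elt U i y * (elt U i (x * y))⁻¹) = 1 :=
      PresentedGroup.one_of_mem (Or.inl ⟨i, x, y, rfl⟩)
    rw [map_mul, map_mul, map_inv, mul_inv_eq_one] at h
    exact h.symm)

theorem Am.emb_apply (i : I) (x : (U i).G) : (Am.emb i x : Am R) = val R (elt U i x) := rfl

theorem Am.fix {X : Type*} [LinearOrder X] (φ : Am R →* Aut X) (x : X)
    (h1 : ∀ y : Y, φ (val R (letter U y)) x = x)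
    (h2 : ∀ i (γ : (U i).G), φ (Am.emb i γ) x = x) (γ : Am R) : φ γ x = x := by
  have hmem : γ ∈ Subgroup.closure (Set.range (PresentedGroup.of (rels := tables U ∪ R))) := by
    rw [PresentedGroup.closure_range_of]; trivial
  induction hmem using Subgroup.closure_induction with
  | mem y hy =>
    obtain ⟨y | ⟨i, z⟩, rfl⟩ := hy
    · exact h1 y
    · exact h2 i z
  | one =>
    have : φ (1 : Am R) x = x := by rw [map_one, Aut.one_apply]
    exact this
  | mul y z _ _ h5 h6 =>
    let y' : Am R := y
    let z' : Am R := z
    have h5' : φ y' x = x := h5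
    have h6' : φ z' x = x := h6
    have : φ (y' * z') x = x := by rw [map_mul, Aut.mul_apply, h6', h5']
    exact this
  | inv y _ h5 =>
    let y' : Am R := y
    have h5' : φ y' x = x := h5
    have : φ (y'⁻¹) x = x := by rw [map_inv, ← Aut.inj (φ y'), Aut.self_inv, h5']
    exact this

end amalgam

/-- The pair of two boxes as a family. -/
def two (U V : Box) : Bool → Box := fun i => if i then V else U

/-- the relation for the sum of two boxes: the elements `g` are equal -/
def addRel (U V : Box) : Set (Word Empty (two U V)) :=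
  {elt (two U V) false U.g * (elt (two U V) true V.g)⁻¹}

/-- The sum: `U` above `V`, with common white regions; `g` is common and the elements `A` are
multiplied. -/
def add (U V : Box) : Box where
  G := Am (addRel U V)
  grp := inferInstance
  g := val (addRel U V) (elt (two U V) false U.g)
  A := val (addRel U V) (elt (two U V) false U.A) * val (addRel U V) (elt (two U V) true V.A)

section subst

variable (T : Tangle) (U : T.C → Box)

/-- the letter of a white region -/
def w (v : T.W) : Word (T.W ⊕ T.B) U := letter U (Sum.inl v)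
/-- the letter of a black region -/
def b (v : T.B) : Word (T.W ⊕ T.B) U := letter U (Sum.inr v)

/-- The corners `w₁, b₁, w₂, b₂` of the crossing `c` are the regions `west`, `south`, `east`, `north` of
the box `U c`; base regions. -/
def relators : Set (Word (T.W ⊕ T.B) U) :=
  {r | (∃ c, r = (w T U (T.w₁ c))⁻¹ * w T U (T.w₂ c) * (elt U c (U c).g)⁻¹) ∨
    (∃ c, r = (b T U (T.b₂ c))⁻¹ * b T U (T.b₁ c) * (elt U c (U c).A)⁻¹) ∨
    r = w T U T.west ∨ r = b T U T.north}

/-- The tangle that is obtained from the alternating tangle diagram `T` by inserting the box `U c` at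
the crossing `c`. -/
def subst : Box where
  G := Am (relators T U)
  grp := inferInstance
  g := val (relators T U) (w T U T.east)
  A := val (relators T U) (b T U T.south)

end subst

/-- Where `g` fixes a point, the whole group fixes it. -/
def Fix (U : Box) : Prop :=
  ∀ (X : Type) [LinearOrder X] (φ : U.G →* Aut X) (x : X), φ U.g x = x → ∀ γ, φ γ x = x

/-- If `g` moves all points up then `A ≥ g ^ n`. -/
def Ge (U : Box) (n : ℤ) : Prop :=
  ∀ (X : Type) [LinearOrder X] (φ : U.G →* Aut X), (∀ x, x < φ U.g x) →
    ∀ x, φ (U.g ^ n) x ≤ φ U.A x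

/-- If `g` moves all points up then `A > g ^ n` at all points. -/
def Gt (U : Box) (n : ℤ) : Prop :=
  ∀ (X : Type) [LinearOrder X] (φ : U.G →* Aut X), (∀ x, x < φ U.g x) →
    ∀ x, φ (U.g ^ n) x < φ U.A x

theorem Gt.ge {U : Box} {n : ℤ} (h : U.Gt n) : U.Ge n := fun X _ φ hg x => (h X φ hg x).le

/-- Voltage and current have the same sign. -/
theorem sign {U : Box} (hf : U.Fix) (h0 : U.Gt 0) {X : Type} [LinearOrder X] (φ : U.G →* Aut X)
    (x : X) : (φ U.A x ≤ x ↔ φ U.g x ≤ x) ∧ (x ≤ φ U.A x ↔ x ≤ φ U.g x) := by
  have key : ∀ y, φ ((U.g) ^ (0 : ℤ)) y = y := fun y => by rw [zpow_zero, map_one, Aut.one_apply]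
  rcases lt_trichotomy (φ U.g x) x with h | h | h
  · have h1 := localize_lt' hf h0 φ h
    rw [key] at h1
    exact ⟨⟨fun _ => h.le, fun _ => h1.le⟩, ⟨fun h2 => absurd h1 (not_lt.mpr h2),
      fun h2 => absurd h (not_lt.mpr h2)⟩⟩
  · have h1 := hf X φ x h U.A
    rw [h, h1]
    exact ⟨Iff.rfl, Iff.rfl⟩
  · have h1 := localize_lt hf h0 φ h
    rw [key] at h1
    exact ⟨⟨fun h2 => absurd h1 (not_lt.mpr h2), fun h2 => absurd h (not_lt.mpr h2)⟩,
      ⟨fun _ => h.le, fun _ => h1.le⟩⟩

theorem swap_fix {U : Box} (hf : U.Fix) (h0 : U.Gt 0) : U.swap.Fix := by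
  intro X _ φ x hx γ
  let ψ : U.G →* Aut X := φ
  have h1 : ψ U.A x = x := hx
  obtain ⟨h2, h3⟩ := sign hf h0 ψ x
  exact hf X ψ x (le_antisymm (h2.mp h1.le) (h3.mp h1.ge)) γ

theorem swap_gt {U : Box} (hf : U.Fix) (h0 : U.Gt 0) : U.swap.Gt 0 := by
  intro X _ φ hg x
  let ψ : U.G →* Aut X := φ
  have h1 : x < ψ U.A x := hg x
  show ψ (U.A ^ (0 : ℤ)) x < ψ U.g x
  rw [zpow_zero, map_one, Aut.one_apply]
  by_contra hcon
  push Not at hcon
  exact absurd h1 (not_lt.mpr ((sign hf h0 ψ x).1.mpr hcon))

theorem mirror_fix {U : Box} (hf : U.Fix) : U.mirror.Fix := hf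

end Box

end Pool.Agent.Q184.PT
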