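import Pool.Agent.Y479.LS.Aut

set_option autoImplicit false

/-!
# Localization at a point that is moved by `g`
-/

namespace Pool.Agent.Q184.PT

open Pool.Agent.Y479.LS Pool.Agent.Y479.LS.Aut Pool.Agent.W705.Borr

/-- The action on the lower sets. -/
def low {X : Type} [LinearOrder X] : Aut X →* Aut (LowerSet X) where
  toFun f := LowerSet.map (f : X ≃o X)
  map_one' := by
    refine Aut.ext' fun s => ?_
    ext x
    constructor
    · rintro ⟨y, hy, rfl⟩; exact hy
    · intro hx; exact ⟨x, hx, rfl⟩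
  map_mul' f g := by
    refine Aut.ext' fun s => ?_
    ext x
    constructor
    · rintro ⟨y, hy, rfl⟩; exact ⟨g y, ⟨y, hy, rfl⟩, rfl⟩
    · rintro ⟨_, ⟨y, hy, rfl⟩, rfl⟩; exact ⟨y, hy, rfl⟩

theorem low_Iic {X : Type} [LinearOrder X] (f : Aut X) (x : X) :
    low f (LowerSet.Iic x) = LowerSet.Iic (f x) := by
  ext y
  constructor
  · rintro ⟨z, hz, rfl⟩
    exact (le_iff f).mpr hz
  · intro hy
    refine ⟨f⁻¹ y, ?_, self_inv f y⟩
    have hy' : y ≤ f x := hy
    show f⁻¹ y ≤ x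
    rw [← le_iff f, self_inv]
    exact hy'

/-- If fixed points of `g` are fixed by the whole group, then the action near a point that is moved up
by `g` is modelled by an action in which `g` moves all points up. -/
theorem exists_local {Γ : Type} [Group Γ] (g : Γ)
    (hfix : ∀ (X : Type) [LinearOrder X] (φ : Γ →* Aut X) (x : X), φ g x = x → ∀ γ, φ γ x = x)
    (X : Type) [LinearOrder X] (φ : Γ →* Aut X) (x : X) (hx : x < φ g x) :
    ∃ (Y : Type) (_ : LinearOrder Y) (ψ : Γ →* Aut Y) (y : Y), (∀ z, z < ψ g z) ∧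
      ∀ γ δ, ψ γ y ≤ ψ δ y ↔ φ γ x ≤ φ δ x := by
  set Φ : Γ →* Aut (LowerSet X) := low.comp φ with hΦ
  set s : LowerSet X := LowerSet.Iic x with hs
  have hΦs : ∀ γ, Φ γ s = LowerSet.Iic (φ γ x) := fun γ => low_Iic _ _
  set G : LowerSet X ≃o LowerSet X := Φ g with hG
  have hs' : s < G s := by
    show s < Φ g s
    rw [hΦs, hs]
    exact LowerSet.Iic_strictMono X hx
  set A : Set (LowerSet X) := {f | f ≤ s ∧ G f = f} with hA
  set B : Set (LowerSet X) := {f | s ≤ f ∧ G f = f} with hB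
  set α := sSup A with hα
  set β := sInf B with hβ
  have xα : G α = α := by
    apply le_antisymm
    · rw [hα, G.map_sSup]
      refine iSup₂_le fun v hv => ?_
      rw [hv.2]; exact le_sSup hv
    · refine sSup_le fun v hv => ?_
      rw [← hv.2]; exact (G.le_iff_le).mpr (le_sSup hv)
  have xβ : G β = β := by
    apply le_antisymm
    · refine le_sInf fun v hv => ?_
      rw [← hv.2]; exact (G.le_iff_le).mpr (sInf_le hv)
    · rw [hβ, G.map_sInf]
      refine le_iInf₂ fun v hv => ?_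
      rw [hv.2]; exact sInf_le hv
  have hsx : G s ≠ s := ne_of_gt hs'
  have hαs : α < s := by
    refine lt_of_le_of_ne (sSup_le fun v hv => hv.1) ?_
    intro e; rw [e] at xα; exact hsx xα
  have hsβ : s < β := by
    refine lt_of_le_of_ne (le_sInf fun v hv => hv.1) ?_
    intro e; rw [← e] at xβ; exact hsx xβ
  have fα := hfix (LowerSet X) Φ α xα
  have fβ := hfix (LowerSet X) Φ β xβ
  set ψ : Γ →* Aut (Set.Ioo α β) :=
    (res α β).comp (Φ.codRestrict (stab α β) fun γ => ⟨fα γ, fβ γ⟩) with hψ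
  refine ⟨Set.Ioo α β, inferInstance, ψ, ⟨s, hαs, hsβ⟩, fun z => ?_, fun γ δ => ?_⟩
  · change z.1 < G z.1
    by_contra hcon
    rw [not_lt] at hcon
    rcases le_total z.1 s with h1 | h1
    · obtain ⟨f, f1, f2, f3⟩ := ivt G h1 hcon hs'
      exact absurd (le_sSup (show f ∈ A from ⟨f2.le, f3⟩)) (not_le.mpr (lt_of_lt_of_le z.2.1 f1))
    · obtain ⟨f, f1, f2, f3⟩ := ivt' G h1 hcon hs'
      exact absurd (sInf_le (show f ∈ B from ⟨f1.le, f3⟩)) (not_le.mpr (lt_of_le_of_lt f2 z.2.2))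
  · change Φ γ s ≤ Φ δ s ↔ _
    rw [hΦs, hΦs]
    exact LowerSet.Iic_le

/-- Localization of an inequality. -/
theorem localize_le {Γ : Type} [Group Γ] {g a b : Γ}
    (hfix : ∀ (X : Type) [LinearOrder X] (φ : Γ →* Aut X) (x : X), φ g x = x → ∀ γ, φ γ x = x)
    (h : ∀ (X : Type) [LinearOrder X] (φ : Γ →* Aut X), (∀ x, x < φ g x) → ∀ x, φ a x ≤ φ b x)
    {X : Type} [LinearOrder X] (φ : Γ →* Aut X) {x : X} (hx : x < φ g x) : φ a x ≤ φ b x := by
  obtain ⟨Y, _, ψ, y, h1, h2⟩ := exists_local g hfix X φ x hx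
  exact (h2 a b).mp (h Y ψ h1 y)

/-- Localization of a strict inequality. -/
theorem localize_lt {Γ : Type} [Group Γ] {g a b : Γ}
    (hfix : ∀ (X : Type) [LinearOrder X] (φ : Γ →* Aut X) (x : X), φ g x = x → ∀ γ, φ γ x = x)
    (h : ∀ (X : Type) [LinearOrder X] (φ : Γ →* Aut X), (∀ x, x < φ g x) → ∀ x, φ a x < φ b x)
    {X : Type} [LinearOrder X] (φ : Γ →* Aut X) {x : X} (hx : x < φ g x) : φ a x < φ b x := by
  obtain ⟨Y, _, ψ, y, h1, h2⟩ := exists_local g hfix X φ x hx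
  have := h Y ψ h1 y
  rw [← not_le] at this ⊢
  rwa [h2] at this

/-- The same for points that are moved down. -/
theorem localize_le' {Γ : Type} [Group Γ] {g a b : Γ}
    (hfix : ∀ (X : Type) [LinearOrder X] (φ : Γ →* Aut X) (x : X), φ g x = x → ∀ γ, φ γ x = x)
    (h : ∀ (X : Type) [LinearOrder X] (φ : Γ →* Aut X), (∀ x, x < φ g x) → ∀ x, φ a x ≤ φ b x)
    {X : Type} [LinearOrder X] (φ : Γ →* Aut X) {x : X} (hx : φ g x < x) : φ b x ≤ φ a x :=
  localize_le (X := Xᵒᵈ) hfix h (dual.comp φ) (x := OrderDual.toDual x) hx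

theorem localize_lt' {Γ : Type} [Group Γ] {g a b : Γ}
    (hfix : ∀ (X : Type) [LinearOrder X] (φ : Γ →* Aut X) (x : X), φ g x = x → ∀ γ, φ γ x = x)
    (h : ∀ (X : Type) [LinearOrder X] (φ : Γ →* Aut X), (∀ x, x < φ g x) → ∀ x, φ a x < φ b x)
    {X : Type} [LinearOrder X] (φ : Γ →* Aut X) {x : X} (hx : φ g x < x) : φ b x < φ a x :=
  localize_lt (X := Xᵒᵈ) hfix h (dual.comp φ) (x := OrderDual.toDual x) hx

end Pool.Agent.Q184.PT
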