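import Pool.Agent.Q184.PT.Subst

set_option autoImplicit false
set_option linter.unusedSectionVars false

/-!
# Certified bounds for tangles, and their soundness
-/

namespace Pool.Agent.Q184.PT

open Pool.Agent.Y479.LS

section data

variable {V C : Type} (v₁ v₂ : C → V) (p q : V) (l : List (C × Bool)) (m : C → ℤ) (t : C → Bool)
  (s : Bool) (k : C × Bool)

/-- the sum of the numbers `m` over a list of corners -/
def total : ℤ := (l.map fun j => m j.1).sum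

/-- Where `m > 0` in the list `l` of the corners at a region, the opposite region is `q`. If `s = true`
then the corner `k` of the list has `m ≤ 0` or `t = true` (strict bound). -/
def Facing : Prop :=
  k ∈ l ∧ (∀ j ∈ l, 0 < m j.1 → cOpp v₁ v₂ j = q) ∧ (s = true → 0 < m k.1 → t k.1 = true)

/-- `m ≥ 0` on the list `l`. If `s = true` then the corner `k` of the list has `m > 0`, and `t = true`
(strict bound) or `k` does not lie between `p` and `q`. -/
def Crossed : Prop :=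
  k ∈ l ∧ (∀ j ∈ l, 0 ≤ m j.1) ∧
    (s = true → 0 < m k.1 ∧ (t k.1 = true ∨ cAt v₁ v₂ k ≠ p ∨ cOpp v₁ v₂ k ≠ q))

end data

/-- `Low W s n`: the bound `A ≥ g ^ n` (`A > g ^ n` if `s = true`) for the box `W` follows from the
rules below. A bound for `W.mirror` is an upper bound for `W`; a bound for `W.swap` compares `g` with
the powers of `A`. The rules `rat`, `ratM`: rational tangles; `weaken`, `strict`, `add`, `addM`: clear;
`swap`: positivity does not depend on the colour; `turn`: `A ≥ g` is `g ≤ A`; `turnM`: `A ≤ g` is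
`g ≥ A`. `diagram`, `walk`: positive boxes `U c` in an alternating diagram `T`; a lower bound is the sum
of lower bounds of the boxes between `west` and `east` (it is strict if one of them is, or if there is
another box at `west`); an upper bound is the sum of upper bounds along a path of boxes from `north` to
`south` (strict if one of them is, or if one of these boxes does not lie between `west` and `east`).
`diagram'`, `walk'`: the same with the colours exchanged. -/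
inductive Low : Box → Bool → ℤ → Prop
  | rat {p q : ℕ} {s : Bool} {n : ℤ} : 1 ≤ q → n * q ≤ p → (s = true → n * q < p) →
      Low (Box.rat p q) s n
  | ratM {p q : ℕ} {s : Bool} {n : ℤ} : 1 ≤ q → p ≤ n * q → (s = true → p < n * q) →
      Low (Box.rat p q).mirror s (-n)
  | weaken {W : Box} {s : Bool} {m n : ℤ} : Low W s n → m ≤ n → Low W false m
  | strict {W : Box} {s : Bool} {m n : ℤ} : Low W s n → m < n → Low W true m
  | add {U V : Box} {s t : Bool} {m n : ℤ} : Low U s m → Low V t n →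
      Low (Box.add U V) (s || t) (m + n)
  | addM {U V : Box} {s t : Bool} {m n : ℤ} : Low U.mirror s m → Low V.mirror t n →
      Low (Box.add U V).mirror (s || t) (m + n)
  | swap {U : Box} : Low U true 0 → Low U.swap true 0
  | turn {U : Box} {s : Bool} : Low U true 0 → Low U s 1 → Low U.swap.mirror s (-1)
  | turnM {U : Box} {s : Bool} : Low U true 0 → Low U.mirror s (-1) → Low U.swap s 1
  | diagram {T : Tangle} {U : T.C → Box} {m : T.C → ℤ} {t : T.C → Bool} {s : Bool}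
      {k : T.C × Bool} : (∀ c, Low (U c) true 0) →
      Facing T.w₁ T.w₂ T.east (T.starW T.west) m t s k →
      (∀ j ∈ T.starW T.west, 0 < m j.1 → Low (U j.1) (t j.1) (m j.1)) →
      Low (Box.subst T U) s (total (T.starW T.west) m)
  | walk {T : Tangle} {U : T.C → Box} {m : T.C → ℤ} {t : T.C → Bool} {s : Bool}
      {k : T.C × Bool} {l : List (T.C × Bool)} : (∀ c, Low (U c) true 0) →
      Path T.b₁ T.b₂ T.north l T.south → Crossed T.w₁ T.w₂ T.west T.east l m t s k →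
      (∀ j ∈ l, Low (U j.1).mirror (t j.1) (-m j.1)) →
      Low (Box.subst T U).mirror s (-total l m)
  | diagram' {T : Tangle} {U : T.C → Box} {m : T.C → ℤ} {t : T.C → Bool} {s : Bool}
      {k : T.C × Bool} : (∀ c, Low (U c) true 0) →
      Facing T.b₁ T.b₂ T.south (T.starB T.north) m t s k →
      (∀ j ∈ T.starB T.north, 0 < m j.1 → Low (U j.1).swap (t j.1) (m j.1)) →
      Low (Box.subst T U).swap s (total (T.starB T.north) m)
  | walk' {T : Tangle} {U : T.C → Box} {m : T.C → ℤ} {t : T.C → Bool} {s : Bool}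
      {k : T.C × Bool} {l : List (T.C × Bool)} : (∀ c, Low (U c) true 0) →
      Path T.w₁ T.w₂ T.west l T.east → Crossed T.b₁ T.b₂ T.north T.south l m t s k →
      (∀ j ∈ l, Low (U j.1).swap.mirror (t j.1) (-m j.1)) →
      Low (Box.subst T U).swap.mirror s (-total l m)

namespace Box

theorem Ge.mono {W : Box} {m n : ℤ} (h : W.Ge n) (hmn : m ≤ n) : W.Ge m := by
  intro X _ φ hg x
  refine le_trans ?_ (h X φ hg x)
  rw [map_zpow, map_zpow]
  exact zpow_le_zpow' hg hmn x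

theorem Ge.strict {W : Box} {m n : ℤ} (h : W.Ge n) (hmn : m < n) : W.Gt m := by
  intro X _ φ hg x
  refine lt_of_lt_of_le ?_ (h X φ hg x)
  rw [map_zpow, map_zpow]
  exact zpow_lt_zpow' hg hmn x

section addMirror

variable {U V : Box} {m n : ℤ}

theorem addMirror_apply {X : Type} [LinearOrder X] (φ : (add U V).G →* Aut X) (x : X) :
    φ ((add U V).g ^ (m + n)) x = (φ.comp inV) (V.g ^ n) ((φ.comp inU) (U.g ^ m) x) ∧
      φ (add U V).A⁻¹ x = (φ.comp inV) V.A⁻¹ ((φ.comp inU) U.A⁻¹ x) := by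
  constructor
  · rw [← Aut.mul_apply, MonoidHom.comp_apply, MonoidHom.comp_apply, ← map_mul, map_zpow inU,
      map_zpow inV, inU_g, inV_g, ← zpow_add, add_comm]
  · rw [← Aut.mul_apply, MonoidHom.comp_apply, MonoidHom.comp_apply, ← map_mul, add_A, map_inv inU,
      map_inv inV, mul_inv_rev]

theorem addMirror_ge (hU : U.mirror.Ge m) (hV : V.mirror.Ge n) :
    (Box.add U V).mirror.Ge (m + n) := by
  have hU' : ∀ (X : Type) [LinearOrder X] (ψ : U.G →* Aut X), (∀ x, x < ψ U.g x) →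
      ∀ x, ψ (U.g ^ m) x ≤ ψ U.A⁻¹ x := hU
  have hV' : ∀ (X : Type) [LinearOrder X] (ψ : V.G →* Aut X), (∀ x, x < ψ V.g x) →
      ∀ x, ψ (V.g ^ n) x ≤ ψ V.A⁻¹ x := hV
  intro X _ φ hg x
  let ψ : (Box.add U V).G →* Aut X := φ
  obtain ⟨h1, h2⟩ := add_hyp ψ hg
  obtain ⟨e1, e2⟩ := addMirror_apply (m := m) (n := n) ψ x
  show ψ ((Box.add U V).g ^ (m + n)) x ≤ ψ (Box.add U V).A⁻¹ x
  rw [e1, e2]
  exact ((Aut.le_iff _).mpr (hU' X _ h1 x)).trans (hV' X _ h2 _)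

theorem addMirror_gt (hU : U.mirror.Ge m) (hV : V.mirror.Ge n)
    (h : U.mirror.Gt m ∨ V.mirror.Gt n) : (Box.add U V).mirror.Gt (m + n) := by
  have hU' : ∀ (X : Type) [LinearOrder X] (ψ : U.G →* Aut X), (∀ x, x < ψ U.g x) →
      ∀ x, ψ (U.g ^ m) x ≤ ψ U.A⁻¹ x := hU
  have hV' : ∀ (X : Type) [LinearOrder X] (ψ : V.G →* Aut X), (∀ x, x < ψ V.g x) →
      ∀ x, ψ (V.g ^ n) x ≤ ψ V.A⁻¹ x := hV
  intro X _ φ hg x
  let ψ : (Box.add U V).G →* Aut X := φ
  obtain ⟨h1, h2⟩ := add_hyp ψ hg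
  obtain ⟨e1, e2⟩ := addMirror_apply (m := m) (n := n) ψ x
  show ψ ((Box.add U V).g ^ (m + n)) x < ψ (Box.add U V).A⁻¹ x
  rw [e1, e2]
  rcases h with h | h
  · have h' : ∀ (X : Type) [LinearOrder X] (ψ : U.G →* Aut X), (∀ x, x < ψ U.g x) →
        ∀ x, ψ (U.g ^ m) x < ψ U.A⁻¹ x := h
    exact lt_of_lt_of_le ((Aut.lt_iff _).mpr (h' X _ h1 x)) (hV' X _ h2 _)
  · have h' : ∀ (X : Type) [LinearOrder X] (ψ : V.G →* Aut X), (∀ x, x < ψ V.g x) →
        ∀ x, ψ (V.g ^ n) x < ψ V.A⁻¹ x := h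
    exact lt_of_le_of_lt ((Aut.le_iff _).mpr (hU' X _ h1 x)) (h' X _ h2 _)

end addMirror

section turn

variable {U : Box}

theorem pos_of_swap (hf : U.Fix) (h0 : U.Gt 0) {X : Type} [LinearOrder X] {ψ : U.G →* Aut X}
    (hg : ∀ x, x < ψ U.A x) (x : X) : x < ψ U.g x := by
  by_contra hcon
  push Not at hcon
  exact absurd (hg x) (not_lt.mpr ((sign hf h0 ψ x).1.mpr hcon))

theorem turn_ge (hf : U.Fix) (h0 : U.Gt 0) (h : U.Ge 1) : U.swap.mirror.Ge (-1) := by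
  intro X _ φ hg x
  let ψ : U.G →* Aut X := φ
  have h1 := h X ψ (pos_of_swap hf h0 hg)
  show ψ (U.A ^ (-1 : ℤ)) x ≤ ψ U.g⁻¹ x
  rw [zpow_neg, zpow_one, map_inv, map_inv]
  rw [zpow_one] at h1
  exact inv_le_inv' h1 x

theorem turn_gt (hf : U.Fix) (h0 : U.Gt 0) (h : U.Gt 1) : U.swap.mirror.Gt (-1) := by
  intro X _ φ hg x
  let ψ : U.G →* Aut X := φ
  have h1 := h X ψ (pos_of_swap hf h0 hg)
  show ψ (U.A ^ (-1 : ℤ)) x < ψ U.g⁻¹ x
  rw [zpow_neg, zpow_one, map_inv, map_inv]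
  rw [zpow_one] at h1
  exact inv_lt_inv' h1 x

theorem turn'_ge (hf : U.Fix) (h0 : U.Gt 0) (h : U.mirror.Ge (-1)) : U.swap.Ge 1 := by
  have h' : ∀ (X : Type) [LinearOrder X] (ψ : U.G →* Aut X), (∀ x, x < ψ U.g x) →
      ∀ x, ψ (U.g ^ (-1 : ℤ)) x ≤ ψ U.A⁻¹ x := h
  intro X _ φ hg x
  let ψ : U.G →* Aut X := φ
  have h1 := inv_le_inv' (h' X ψ (pos_of_swap hf h0 hg)) x
  rw [map_inv, inv_inv, zpow_neg, map_inv, inv_inv, zpow_one] at h1
  show ψ (U.A ^ (1 : ℤ)) x ≤ ψ U.g x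
  rw [zpow_one]
  exact h1

theorem turn'_gt (hf : U.Fix) (h0 : U.Gt 0) (h : U.mirror.Gt (-1)) : U.swap.Gt 1 := by
  have h' : ∀ (X : Type) [LinearOrder X] (ψ : U.G →* Aut X), (∀ x, x < ψ U.g x) →
      ∀ x, ψ (U.g ^ (-1 : ℤ)) x < ψ U.A⁻¹ x := h
  intro X _ φ hg x
  let ψ : U.G →* Aut X := φ
  have h1 := inv_lt_inv' (h' X ψ (pos_of_swap hf h0 hg)) x
  rw [map_inv, inv_inv, zpow_neg, map_inv, inv_inv, zpow_one] at h1
  show ψ (U.A ^ (1 : ℤ)) x < ψ U.g x
  rw [zpow_one]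
  exact h1

end turn

end Box

open Box in
/-- Soundness of the rules. -/
theorem Low.sound {W : Box} {s : Bool} {n : ℤ} (h : Low W s n) :
    W.Fix ∧ W.Ge n ∧ (s = true → W.Gt n) := by
  induction h with
  | rat hq h1 h2 => exact ⟨rat_fix _ _ hq, rat_ge h1, fun hs => rat_gt (h2 hs)⟩
  | ratM hq h1 h2 => exact ⟨mirror_fix (rat_fix _ _ hq), rat_le h1, fun hs => rat_lt (h2 hs)⟩
  | weaken _ hmn ih => exact ⟨ih.1, ih.2.1.mono hmn, by simp⟩
  | strict _ hmn ih => exact ⟨ih.1, (ih.2.1.strict hmn).ge, fun _ => ih.2.1.strict hmn⟩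
  | add _ _ ih1 ih2 =>
    refine ⟨add_fix ih1.1 ih2.1, add_ge ih1.2.1 ih2.2.1, fun hs => ?_⟩
    rw [Bool.or_eq_true] at hs
    exact add_gt ih1.2.1 ih2.2.1 (hs.imp ih1.2.2 ih2.2.2)
  | addM _ _ ih1 ih2 =>
    refine ⟨mirror_fix (add_fix ih1.1 ih2.1), addMirror_ge ih1.2.1 ih2.2.1, fun hs => ?_⟩
    rw [Bool.or_eq_true] at hs
    exact addMirror_gt ih1.2.1 ih2.2.1 (hs.imp ih1.2.2 ih2.2.2)
  | swap _ ih =>
    have := swap_gt ih.1 (ih.2.2 rfl)
    exact ⟨swap_fix ih.1 (ih.2.2 rfl), this.ge, fun _ => this⟩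
  | turn _ _ ih1 ih2 =>
    exact ⟨mirror_fix (swap_fix ih1.1 (ih1.2.2 rfl)), turn_ge ih1.1 (ih1.2.2 rfl) ih2.2.1,
      fun hs => turn_gt ih1.1 (ih1.2.2 rfl) (ih2.2.2 hs)⟩
  | turnM _ _ ih1 ih2 =>
    exact ⟨swap_fix ih1.1 (ih1.2.2 rfl), turn'_ge ih1.1 (ih1.2.2 rfl) ih2.2.1,
      fun hs => turn'_gt ih1.1 (ih1.2.2 rfl) (ih2.2.2 hs)⟩
  | @diagram T U m t s k _ h1 _ ih1 ih2 =>
    obtain ⟨hk, h3, h4⟩ := h1
    have hU : ∀ c, (U c).Fix ∧ (U c).Gt 0 := fun c => ⟨(ih1 c).1, (ih1 c).2.2 rfl⟩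
    have hm : ∀ j ∈ T.starW T.west, m j.1 ≤ 0 ∨
        (cOpp T.w₁ T.w₂ j = T.east ∧ (U j.1).Ge (m j.1)) := fun j hj =>
      (le_or_gt (m j.1) 0).imp_right fun h0 => ⟨h3 j hj h0, (ih2 j hj h0).2.1⟩
    exact ⟨subst_fix hU, subst_ge hU m hm, fun hs => subst_gt hU m hm ⟨k, hk,
      (le_or_gt (m k.1) 0).imp_right fun h0 => ⟨h3 k hk h0, (ih2 k hk h0).2.2 (h4 hs h0)⟩⟩⟩
  | @walk T U m t s k l _ hl h1 _ ih1 ih2 =>
    obtain ⟨hk, h3, h4⟩ := h1
    have hU : ∀ c, (U c).Fix ∧ (U c).Gt 0 := fun c => ⟨(ih1 c).1, (ih1 c).2.2 rfl⟩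
    have hm : ∀ j ∈ l, 0 ≤ m j.1 ∧ (U j.1).mirror.Ge (-m j.1) := fun j hj =>
      ⟨h3 j hj, (ih2 j hj).2.1⟩
    exact ⟨mirror_fix (subst_fix hU), subst_le hU m hl hm, fun hs => subst_lt hU m hl hm
      ⟨k, hk, (h4 hs).1, (h4 hs).2.imp_left (ih2 k hk).2.2⟩⟩
  | @diagram' T U m t s k _ h1 _ ih1 ih2 =>
    obtain ⟨hk, h3, h4⟩ := h1
    have hU : ∀ c, (U c).Fix ∧ (U c).Gt 0 := fun c => ⟨(ih1 c).1, (ih1 c).2.2 rfl⟩
    have hm : ∀ j ∈ T.starB T.north, m j.1 ≤ 0 ∨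
        (cOpp T.b₁ T.b₂ j = T.south ∧ (U j.1).swap.Ge (m j.1)) := fun j hj =>
      (le_or_gt (m j.1) 0).imp_right fun h0 => ⟨h3 j hj h0, (ih2 j hj h0).2.1⟩
    exact ⟨swap_fix (subst_fix hU) (subst_gt0 hU), swap_ge hU m hm, fun hs => swap_gt' hU m hm
      ⟨k, hk, (le_or_gt (m k.1) 0).imp_right fun h0 =>
        ⟨h3 k hk h0, (ih2 k hk h0).2.2 (h4 hs h0)⟩⟩⟩
  | @walk' T U m t s k l _ hl h1 _ ih1 ih2 =>
    obtain ⟨hk, h3, h4⟩ := h1
    have hU : ∀ c, (U c).Fix ∧ (U c).Gt 0 := fun c => ⟨(ih1 c).1, (ih1 c).2.2 rfl⟩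
    have hm : ∀ j ∈ l, 0 ≤ m j.1 ∧ (U j.1).swap.mirror.Ge (-m j.1) := fun j hj =>
      ⟨h3 j hj, (ih2 j hj).2.1⟩
    exact ⟨mirror_fix (swap_fix (subst_fix hU) (subst_gt0 hU)), swap_le hU m hl hm, fun hs =>
      swap_lt hU m hl hm ⟨k, hk, (h4 hs).1, (h4 hs).2.imp_left (ih2 k hk).2.2⟩⟩

namespace Box

/-- The group of the closure in which `north` and `south` become one region. -/
abbrev num (W : Box) : Type := W.G ⧸ Subgroup.normalClosure {W.A}

/-- The group of the closure in which `west` and `east` become one region. -/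
abbrev den (W : Box) : Type := W.G ⧸ Subgroup.normalClosure {W.g}

theorem num_trivial {W : Box} (hf : W.Fix) (h0 : W.Gt 0) (H : Type) [Group H]
    (hH : LeftOrderable H) (f : W.num →* H) (γ : W.num) : f γ = 1 := by
  refine hom_trivial (QuotientGroup.mk' _ W.g) (fun X _ φ x hx γ => ?_) (fun X _ _ φ hpos => ?_)
    H hH f γ
  · obtain ⟨δ, rfl⟩ := QuotientGroup.mk'_surjective _ γ
    exact hf X (φ.comp (QuotientGroup.mk' _)) x hx δ
  · obtain ⟨x⟩ := ‹Nonempty X›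
    have h1 := h0 X (φ.comp (QuotientGroup.mk' _)) hpos x
    have e : QuotientGroup.mk' (Subgroup.normalClosure {W.A}) W.A = 1 := by
      rw [QuotientGroup.mk'_apply, QuotientGroup.eq_one_iff]
      exact Subgroup.subset_normalClosure rfl
    rw [zpow_zero, map_one, Aut.one_apply, MonoidHom.comp_apply, e, map_one, Aut.one_apply] at h1
    exact lt_irrefl _ h1

theorem den_trivial {W : Box} (hf : W.Fix) (H : Type) [Group H]
    (hH : LeftOrderable H) (f : W.den →* H) (γ : W.den) : f γ = 1 := by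
  have e : QuotientGroup.mk' (Subgroup.normalClosure {W.g}) W.g = 1 := by
    rw [QuotientGroup.mk'_apply, QuotientGroup.eq_one_iff]
    exact Subgroup.subset_normalClosure rfl
  refine hom_trivial (QuotientGroup.mk' _ W.g) (fun X _ φ x hx γ => ?_) (fun X _ _ φ hpos => ?_)
    H hH f γ
  · obtain ⟨δ, rfl⟩ := QuotientGroup.mk'_surjective _ γ
    exact hf X (φ.comp (QuotientGroup.mk' _)) x hx δ
  · obtain ⟨x⟩ := ‹Nonempty X›
    have h1 := hpos x
    rw [e, map_one, Aut.one_apply] at h1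
    exact lt_irrefl _ h1

end Box

end Pool.Agent.Q184.PT
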