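import Pool.Agent.Q184.PT.Box

set_option autoImplicit false
set_option linter.unusedSectionVars false

/-!
# Bounds for rational tangles and sums
-/

namespace Pool.Agent.Q184.PT

open Pool.Agent.Y479.LS

section aut

variable {X : Type*} [LinearOrder X]

theorem inv_le_inv' {f h : Aut X} (H : ∀ x, f x ≤ h x) (x : X) : h⁻¹ x ≤ f⁻¹ x := by
  rw [← Aut.le_iff f, Aut.self_inv]
  have := H (h⁻¹ x)
  rwa [Aut.self_inv] at this

theorem inv_lt_inv' {f h : Aut X} (H : ∀ x, f x < h x) (x : X) : h⁻¹ x < f⁻¹ x := by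
  rw [← Aut.lt_iff f, Aut.self_inv]
  have := H (h⁻¹ x)
  rwa [Aut.self_inv] at this

theorem pow_le_self {z : Aut X} {x : X} (h : z x ≤ x) : ∀ n : ℕ, (z ^ n) x ≤ x
  | 0 => by rw [pow_zero, Aut.one_apply]
  | n + 1 => by
    rw [pow_succ, Aut.mul_apply]
    exact ((Aut.le_iff (z ^ n)).mpr h).trans (pow_le_self h n)

theorem pow_lt_self {z : Aut X} {x : X} (h : z x < x) {n : ℕ} (hn : 1 ≤ n) : (z ^ n) x < x := by
  obtain ⟨n, rfl⟩ := Nat.exists_eq_add_of_le' hn
  rw [pow_succ, Aut.mul_apply]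
  exact lt_of_lt_of_le ((Aut.lt_iff (z ^ n)).mpr h) (pow_le_self h.le n)

theorem self_le_pow {z : Aut X} {x : X} (h : x ≤ z x) (n : ℕ) : x ≤ (z ^ n) x :=
  pow_le_self (X := Xᵒᵈ) (z := Aut.dual z) (x := OrderDual.toDual x) h n |> fun h2 => by
    rw [← map_pow] at h2; exact h2

theorem self_lt_pow {z : Aut X} {x : X} (h : x < z x) {n : ℕ} (hn : 1 ≤ n) : x < (z ^ n) x :=
  pow_lt_self (X := Xᵒᵈ) (z := Aut.dual z) (x := OrderDual.toDual x) h hn |> fun h2 => by
    rw [← map_pow] at h2; exact h2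

theorem zpow_le_zpow' {z : Aut X} (h : ∀ x, x < z x) {m n : ℤ} (hmn : m ≤ n) (x : X) :
    (z ^ m) x ≤ (z ^ n) x := by
  obtain ⟨k, rfl⟩ := Int.le.dest hmn
  rw [zpow_add, Aut.mul_apply, Aut.le_iff, zpow_natCast]
  exact self_le_pow (h x).le k

theorem zpow_lt_zpow' {z : Aut X} (h : ∀ x, x < z x) {m n : ℤ} (hmn : m < n) (x : X) :
    (z ^ m) x < (z ^ n) x := by
  obtain ⟨k, rfl⟩ := Int.le.dest hmn.le
  rw [zpow_add, Aut.mul_apply, Aut.lt_iff, zpow_natCast]
  exact self_lt_pow (h x) (by omega)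

end aut

namespace Box

theorem rat_map {X : Type} [LinearOrder X] (φ : Multiplicative ℤ →* Aut X) (n : ℤ) :
    φ (Multiplicative.ofAdd n) = φ (Multiplicative.ofAdd 1) ^ n := by
  rw [← map_zpow, ← ofAdd_zsmul, smul_eq_mul, mul_one]

theorem rat_fix (p q : ℕ) (hq : 1 ≤ q) : (rat p q).Fix := by
  intro X _ φ x hx γ
  let ψ : Multiplicative ℤ →* Aut X := φ
  set z := ψ (Multiplicative.ofAdd 1) with hz
  have h1 : (z ^ q) x = x := by
    have : ψ (Multiplicative.ofAdd (q : ℤ)) x = x := hx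
    rwa [rat_map, zpow_natCast] at this
  have h2 : z x = x := by
    rcases lt_trichotomy (z x) x with h | h | h
    · exact absurd (pow_lt_self h hq) (by rw [h1]; exact lt_irrefl _)
    · exact h
    · exact absurd (self_lt_pow h hq) (by rw [h1]; exact lt_irrefl _)
  have h3 : ∀ n : ℕ, (z ^ n) x = x := fun n =>
    le_antisymm (pow_le_self h2.le n) (self_le_pow h2.ge n)
  have h4 : ∀ n : ℤ, (z ^ n) x = x := by
    intro n
    rcases Int.eq_nat_or_neg n with ⟨m, rfl | rfl⟩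
    · rw [zpow_natCast]; exact h3 m
    · rw [zpow_neg, zpow_natCast, ← Aut.inj (z ^ m), Aut.self_inv, h3]
  let δ : Multiplicative ℤ := γ
  show ψ δ x = x
  rw [← ofAdd_toAdd δ, rat_map]
  exact h4 _

theorem rat_pos {X : Type} [LinearOrder X] {z : Aut X} {q : ℕ} (h : ∀ x, x < (z ^ q) x) (x : X) :
    x < z x := by
  by_contra hcon
  push Not at hcon
  exact absurd (h x) (not_lt.mpr (pow_le_self hcon q))

theorem rat_ge {p q : ℕ} {n : ℤ} (h : n * q ≤ p) : (rat p q).Ge n := by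
  intro X _ φ hg x
  let ψ : Multiplicative ℤ →* Aut X := φ
  have hg' : ∀ x, x < (ψ (Multiplicative.ofAdd 1) ^ q) x := by
    intro x
    have : x < ψ (Multiplicative.ofAdd (q : ℤ)) x := hg x
    rwa [rat_map, zpow_natCast] at this
  show ψ (Multiplicative.ofAdd (q : ℤ) ^ n) x ≤ ψ (Multiplicative.ofAdd (p : ℤ)) x
  rw [map_zpow, rat_map, rat_map ψ p, ← zpow_mul]
  exact zpow_le_zpow' (rat_pos hg') (by rw [mul_comm]; exact h) x

theorem rat_gt {p q : ℕ} {n : ℤ} (h : n * q < p) : (rat p q).Gt n := by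
  intro X _ φ hg x
  let ψ : Multiplicative ℤ →* Aut X := φ
  have hg' : ∀ x, x < (ψ (Multiplicative.ofAdd 1) ^ q) x := by
    intro x
    have : x < ψ (Multiplicative.ofAdd (q : ℤ)) x := hg x
    rwa [rat_map, zpow_natCast] at this
  show ψ (Multiplicative.ofAdd (q : ℤ) ^ n) x < ψ (Multiplicative.ofAdd (p : ℤ)) x
  rw [map_zpow, rat_map, rat_map ψ p, ← zpow_mul]
  exact zpow_lt_zpow' (rat_pos hg') (by rw [mul_comm]; exact h) x

theorem rat_le {p q : ℕ} {n : ℤ} (h : (p : ℤ) ≤ n * q) : (rat p q).mirror.Ge (-n) := by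
  intro X _ φ hg x
  let ψ : Multiplicative ℤ →* Aut X := φ
  have hg' : ∀ x, x < (ψ (Multiplicative.ofAdd 1) ^ q) x := by
    intro x
    have : x < ψ (Multiplicative.ofAdd (q : ℤ)) x := hg x
    rwa [rat_map, zpow_natCast] at this
  show ψ (Multiplicative.ofAdd (q : ℤ) ^ (-n)) x ≤ ψ (Multiplicative.ofAdd (p : ℤ))⁻¹ x
  rw [map_zpow, map_inv, rat_map, rat_map ψ p, ← zpow_mul, ← zpow_neg]
  exact zpow_le_zpow' (rat_pos hg') (by nlinarith) x

theorem rat_lt {p q : ℕ} {n : ℤ} (h : (p : ℤ) < n * q) : (rat p q).mirror.Gt (-n) := by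
  intro X _ φ hg x
  let ψ : Multiplicative ℤ →* Aut X := φ
  have hg' : ∀ x, x < (ψ (Multiplicative.ofAdd 1) ^ q) x := by
    intro x
    have : x < ψ (Multiplicative.ofAdd (q : ℤ)) x := hg x
    rwa [rat_map, zpow_natCast] at this
  show ψ (Multiplicative.ofAdd (q : ℤ) ^ (-n)) x < ψ (Multiplicative.ofAdd (p : ℤ))⁻¹ x
  rw [map_zpow, map_inv, rat_map, rat_map ψ p, ← zpow_mul, ← zpow_neg]
  exact zpow_lt_zpow' (rat_pos hg') (by nlinarith) x

section add

variable {U V : Box}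

/-- the two embeddings -/
def inU : U.G →* (add U V).G := Am.emb (U := two U V) (R := addRel U V) false
def inV : V.G →* (add U V).G := Am.emb (U := two U V) (R := addRel U V) true

theorem inU_g : inU U.g = (add U V).g := rfl

theorem inV_g : inV V.g = (add U V).g := by
  have : val (addRel U V) (elt (two U V) false U.g * (elt (two U V) true V.g)⁻¹) = 1 :=
    Am.rel rfl
  rw [map_mul, map_inv, mul_inv_eq_one] at this
  exact this.symm

theorem add_A : (add U V).A = inU U.A * inV V.A := rfl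

theorem add_fix (hU : U.Fix) (hV : V.Fix) : (add U V).Fix := by
  intro X _ φ x hx γ
  refine Am.fix (R := addRel U V) φ x (fun y => y.elim) ?_ γ
  intro i δ
  cases i
  · exact hU X (φ.comp inU) x (by rw [MonoidHom.comp_apply, inU_g]; exact hx) δ
  · exact hV X (φ.comp inV) x (by rw [MonoidHom.comp_apply, inV_g]; exact hx) δ

theorem add_apply {m n : ℤ} {X : Type} [LinearOrder X] (φ : (add U V).G →* Aut X) (x : X) :
    φ ((add U V).g ^ (m + n)) x = (φ.comp inU) (U.g ^ m) ((φ.comp inV) (V.g ^ n) x) ∧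
      φ (add U V).A x = (φ.comp inU) U.A ((φ.comp inV) V.A x) := by
  constructor
  · rw [← Aut.mul_apply, MonoidHom.comp_apply, MonoidHom.comp_apply, ← map_mul, map_zpow inU,
      map_zpow inV, inU_g, inV_g, zpow_add]
  · rw [← Aut.mul_apply, MonoidHom.comp_apply, MonoidHom.comp_apply, ← map_mul, add_A]

theorem add_hyp {X : Type} [LinearOrder X] (φ : (add U V).G →* Aut X)
    (hg : ∀ x, x < φ (add U V).g x) :
    (∀ x, x < (φ.comp inU) U.g x) ∧ ∀ x, x < (φ.comp inV) V.g x := by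
  constructor
  · intro x; rw [MonoidHom.comp_apply, inU_g]; exact hg x
  · intro x; rw [MonoidHom.comp_apply, inV_g]; exact hg x

theorem add_ge {m n : ℤ} (hU : U.Ge m) (hV : V.Ge n) : (add U V).Ge (m + n) := by
  intro X _ φ hg x
  obtain ⟨h1, h2⟩ := add_hyp φ hg
  obtain ⟨e1, e2⟩ := add_apply (m := m) (n := n) φ x
  rw [e1, e2]
  exact ((Aut.le_iff _).mpr (hV X _ h2 x)).trans (hU X _ h1 _)

theorem add_gt {m n : ℤ} (hU : U.Ge m) (hV : V.Ge n) (h : U.Gt m ∨ V.Gt n) :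
    (add U V).Gt (m + n) := by
  intro X _ φ hg x
  obtain ⟨h1, h2⟩ := add_hyp φ hg
  obtain ⟨e1, e2⟩ := add_apply (m := m) (n := n) φ x
  rw [e1, e2]
  rcases h with h | h
  · exact lt_of_le_of_lt ((Aut.le_iff _).mpr (hV X _ h2 x)) (h X _ h1 _)
  · exact lt_of_lt_of_le ((Aut.lt_iff _).mpr (h X _ h2 x)) (hU X _ h1 _)

end add

end Box

end Pool.Agent.Q184.PT
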