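import Pool.Agent.Y479.LS.Pos
import Pool.Agent.Q184.PT.Loc

set_option autoImplicit false
set_option linter.unusedSectionVars false

/-!
# The maximum principle for diagrams with sign-definite tangles instead of crossings
-/

namespace Pool.Agent.Q184.PT

open Pool.Agent.Y479.LS Relation

section
variable {V E C : Type} {v₁ v₂ : C → V} {e₁ e₂ : C → E} {p q : V} {a b : E}
  {star : V → List (C × Bool)}

/-- Voltage and current have the same sign at every crossing and every point. -/
def SRel {X : Type*} [LinearOrder X] (v₁ v₂ : C → V) (e₁ e₂ : C → E) (f : V → Aut X)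
    (h : E → Aut X) : Prop :=
  ∀ (k : C × Bool) (x : X),
    (((h (cOpp e₁ e₂ k))⁻¹ * h (cAt e₁ e₂ k)) x ≤ x ↔ f (cOpp v₁ v₂ k) x ≤ f (cAt v₁ v₂ k) x) ∧
    (x ≤ ((h (cOpp e₁ e₂ k))⁻¹ * h (cAt e₁ e₂ k)) x ↔ f (cAt v₁ v₂ k) x ≤ f (cOpp v₁ v₂ k) x)

variable {X : Type*} [LinearOrder X] {f : V → Aut X} {h : E → Aut X}

theorem SRel.dual (hr : SRel v₁ v₂ e₁ e₂ f h) :
    SRel v₁ v₂ e₁ e₂ (fun v => Aut.dual (f v)) (fun e => Aut.dual (h e)) := by
  intro k x
  obtain ⟨h1, h2⟩ := hr k (OrderDual.ofDual x)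
  constructor
  · rw [← map_inv, ← map_mul]
    exact h2
  · rw [← map_inv, ← map_mul]
    exact h1

theorem SRel.swap (hr : SRel v₁ v₂ e₁ e₂ f h) : SRel e₁ e₂ v₁ v₂ h f := by
  intro k x
  obtain ⟨h1, h2⟩ := hr k x
  constructor
  · rw [Aut.inv_mul_le, ← h2, Aut.le_inv_mul]
  · rw [Aut.le_inv_mul, ← h1, Aut.inv_mul_le]

variable (S : Side v₁ v₂ e₁ e₂ p q a b star) (hr : SRel v₁ v₂ e₁ e₂ f h) (x : X)

include S hr

theorem local_max {v : V} (hp : v ≠ p) (hq : v ≠ q)
    (hm : ∀ k ∈ star v, f (cOpp v₁ v₂ k) x ≤ f v x) :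
    ∀ k ∈ star v, f (cOpp v₁ v₂ k) x = f v x := by
  obtain ⟨e, he⟩ := S.inner v hp hq
  have h1 := path_prod h _ _ _ he
  rw [inv_mul_cancel] at h1
  have h3 := Aut.list_eq (x := x)
    ((star v).map fun k => (h (cOpp e₁ e₂ k))⁻¹ * h (cAt e₁ e₂ k)) ?_ ?_
  · intro k hk
    have h4 := h3 _ (List.mem_map_of_mem hk)
    refine le_antisymm (hm k hk) ?_
    rw [← (S.mem v k).mp hk, ← (hr k x).2]
    exact h4.ge
  · intro g hg
    obtain ⟨k, hk, rfl⟩ := List.mem_map.mp hg
    rw [(hr k x).1, (S.mem v k).mp hk]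
    exact hm k hk
  · rw [h1, Aut.one_apply]

theorem le_second [Finite V] (hpq : f p x ≤ f q x) (v : V) : f v x ≤ f q x := by
  obtain ⟨M, hM⟩ : ∃ M, ∀ n, f n x ≤ f M x := by
    have : Nonempty V := ⟨p⟩
    exact Finite.exists_max fun n => f n x
  refine (hM v).trans ?_
  by_cases hMp : M = p
  · rw [hMp]; exact hpq
  have : ∀ u, ReflTransGen (fun x y => Adj v₁ v₂ x y ∧ y ≠ p) u q → u ≠ p → f u x = f M x →
      f M x ≤ f q x := by
    intro u hu
    induction hu using ReflTransGen.head_induction_on with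
    | refl => intro _ h1; exact h1.ge
    | @head u c huc _ ih =>
      intro hup h1
      by_cases huq : u = q
      · rw [← huq]; exact h1.ge
      obtain ⟨⟨k, hk1, hk2⟩, hc⟩ := huc
      have h2 := local_max S hr x hup huq (fun k _ => h1 ▸ hM _) k ((S.mem u k).mpr hk1)
      rw [hk2] at h2
      exact ih hc (h2.trans h1)
  exact this M (S.toSecond M hMp) hMp rfl

theorem lt_second [Finite V] (hpq : f p x < f q x) {v : V} (hv : v ≠ q) : f v x < f q x := by
  have hM := le_second S hr x hpq.le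
  refine lt_of_le_of_ne (hM v) fun hcon => ?_
  have : ∀ u, ReflTransGen (fun x y => Adj v₁ v₂ x y ∧ y ≠ q) u p → u ≠ q → f u x = f q x →
      False := by
    intro u hu
    induction hu using ReflTransGen.head_induction_on with
    | refl => intro _ h1; exact hpq.ne h1
    | @head u c huc _ ih =>
      intro huq h1
      by_cases hup : u = p
      · rw [hup] at h1; exact hpq.ne h1
      obtain ⟨⟨k, hk1, hk2⟩, hc⟩ := huc
      have h2 := local_max S hr x hup huq (fun k _ => h1 ▸ hM _) k ((S.mem u k).mpr hk1)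
      rw [hk2] at h2
      exact ih hc (h2.trans h1)
  exact this v (S.toFirst v hv) hv hcon

theorem first_le [Finite V] (hpq : f p x ≤ f q x) (v : V) : f p x ≤ f v x :=
  le_second (X := Xᵒᵈ) S.symm hr.dual (OrderDual.toDual x) hpq v

theorem first_lt [Finite V] (hpq : f p x < f q x) {v : V} (hv : v ≠ p) : f p x < f v x :=
  lt_second (X := Xᵒᵈ) S.symm hr.dual (OrderDual.toDual x) hpq hv

theorem current_aux [Finite V] (hpq : f q x ≤ f p x) : h b x ≤ h a x := by
  rw [← Aut.inv_mul_le, ← path_prod h _ _ _ S.first]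
  refine Aut.list_le _ fun g hg => ?_
  obtain ⟨k, hk, rfl⟩ := List.mem_map.mp hg
  rw [(hr k x).1, (S.mem p k).mp hk]
  exact le_second S.symm hr x hpq _

theorem current [Finite V] (hpq : f p x ≤ f q x) : h a x ≤ h b x :=
  current_aux S.symm hr x hpq

theorem eq_of_eq [Finite V] (hpq : f p x = f q x) : (∀ v, f v x = f p x) ∧ h b x = h a x := by
  refine ⟨fun v => le_antisymm ?_ (first_le S hr x hpq.le v), le_antisymm ?_ ?_⟩
  · rw [hpq]; exact le_second S hr x hpq.le v
  · exact current_aux S hr x hpq.ge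
  · exact current S hr x hpq.le

end

/-- From a strictly positive voltage everywhere to `Bounds`, and pointwise. -/
theorem bounds {T : Tangle} {X : Type*} [LinearOrder X] {w : T.W → Aut X} {b : T.B → Aut X}
    (hr : SRel T.w₁ T.w₂ T.b₁ T.b₂ w b) (hw : w T.west = 1) (hb : b T.north = 1)
    (hpos : ∀ x, x < w T.east x) :
    (∀ v, v ≠ T.west → ∀ x, x < w v x) ∧ (∀ v, v ≠ T.east → ∀ x, w v x < w T.east x) ∧
      (∀ v, v ≠ T.north → ∀ x, x < b v x) ∧ (∀ v, v ≠ T.south → ∀ x, b v x < b T.south x) := by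
  have := T.finW
  have := T.finB
  have h1 : ∀ x, w T.west x < w T.east x := fun x => by rw [hw]; exact hpos x
  have h2 : ∀ x, b T.north x < b T.south x := fun x => by
    refine lt_of_le_of_ne (current T.white hr x (h1 x).le) fun hcon => ?_
    exact (h1 x).ne (eq_of_eq T.black hr.swap x hcon).2.symm
  refine ⟨fun v hv x => ?_, fun v hv x => ?_, fun v hv x => ?_, fun v hv x => ?_⟩
  · have := first_lt T.white hr x (h1 x) hv
    rwa [hw] at this
  · exact lt_second T.white hr x (h1 x) hv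
  · have := first_lt T.black hr.swap x (h2 x) hv
    rwa [hb] at this
  · exact lt_second T.black hr.swap x (h2 x) hv

/-- Where `west` and `east` agree, all regions of a colour agree. -/
theorem fix {T : Tangle} {X : Type*} [LinearOrder X] {w : T.W → Aut X} {b : T.B → Aut X}
    (hr : SRel T.w₁ T.w₂ T.b₁ T.b₂ w b) {x : X}
    (hx : w T.west x = w T.east x) : (∀ v, w v x = w T.west x) ∧ ∀ v, b v x = b T.north x := by
  have := T.finW
  have := T.finB
  obtain ⟨h1, h2⟩ := eq_of_eq T.white hr x hx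
  exact ⟨h1, (eq_of_eq T.black hr.swap x h2.symm).1⟩

end Pool.Agent.Q184.PT
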