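import Pool.Agent.Q184.PT.Sem

set_option autoImplicit false
set_option linter.unusedSectionVars false

/-!
# Bounds for one colour of a diagram with sign-definite boxes instead of crossings
-/

namespace Pool.Agent.Q184.PT

open Pool.Agent.Y479.LS

section list

variable {X : Type*} [LinearOrder X] {K : Type*} (g : Aut X) (m : K → ℤ) (F : K → Aut X)

theorem list_ge : ∀ (l : List K), (∀ k ∈ l, ∀ x, (g ^ m k) x ≤ F k x) →
    ∀ x, (g ^ (l.map m).sum) x ≤ (l.map F).prod x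
  | [], _, x => by simp
  | k :: l, h, x => by
    rw [List.map_cons, List.map_cons, List.sum_cons, List.prod_cons, zpow_add, Aut.mul_apply,
      Aut.mul_apply]
    exact ((Aut.le_iff _).mpr (list_ge l (fun k hk => h k (List.mem_cons_of_mem _ hk)) x)).trans
      (h k List.mem_cons_self _)

theorem list_gt : ∀ (l : List K), (∀ k ∈ l, ∀ x, (g ^ m k) x ≤ F k x) →
    (∃ k ∈ l, ∀ x, (g ^ m k) x < F k x) → ∀ x, (g ^ (l.map m).sum) x < (l.map F).prod x
  | [], _, h, x => by simp at h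
  | k :: l, h, hs, x => by
    have h1 : ∀ k ∈ l, ∀ x, (g ^ m k) x ≤ F k x := fun k hk => h k (List.mem_cons_of_mem _ hk)
    rw [List.map_cons, List.map_cons, List.sum_cons, List.prod_cons, zpow_add, Aut.mul_apply,
      Aut.mul_apply]
    obtain ⟨k', hk', h2⟩ := hs
    rcases List.mem_cons.mp hk' with rfl | hk'
    · exact lt_of_le_of_lt ((Aut.le_iff _).mpr (list_ge g m F l h1 x)) (h2 _)
    · exact lt_of_lt_of_le ((Aut.lt_iff _).mpr (list_gt l h1 ⟨k', hk', h2⟩ x))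
        (h k List.mem_cons_self _)

theorem list_le' : ∀ (l : List K), (∀ k ∈ l, ∀ x, F k x ≤ (g ^ m k) x) →
    ∀ x, (l.map F).prod x ≤ (g ^ (l.map m).sum) x
  | [], _, x => by simp
  | k :: l, h, x => by
    rw [List.map_cons, List.map_cons, List.sum_cons, List.prod_cons, zpow_add, Aut.mul_apply,
      Aut.mul_apply]
    exact ((Aut.le_iff _).mpr (list_le' l (fun k hk => h k (List.mem_cons_of_mem _ hk)) x)).trans
      (h k List.mem_cons_self _)

theorem list_lt' : ∀ (l : List K), (∀ k ∈ l, ∀ x, F k x ≤ (g ^ m k) x) →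
    (∃ k ∈ l, ∀ x, F k x < (g ^ m k) x) → ∀ x, (l.map F).prod x < (g ^ (l.map m).sum) x
  | [], _, h, x => by simp at h
  | k :: l, h, hs, x => by
    have h1 : ∀ k ∈ l, ∀ x, F k x ≤ (g ^ m k) x := fun k hk => h k (List.mem_cons_of_mem _ hk)
    rw [List.map_cons, List.map_cons, List.sum_cons, List.prod_cons, zpow_add, Aut.mul_apply,
      Aut.mul_apply]
    obtain ⟨k', hk', h2⟩ := hs
    rcases List.mem_cons.mp hk' with rfl | hk'
    · exact lt_of_le_of_lt ((Aut.le_iff _).mpr (list_le' g m F l h1 x)) (h2 _)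
    · exact lt_of_lt_of_le ((Aut.lt_iff _).mpr (list_lt' l h1 ⟨k', hk', h2⟩ x))
        (h k List.mem_cons_self _)

end list

section pow

variable {X : Type*} [LinearOrder X] {F G : Aut X}

theorem pow_le_pow_of (h : ∀ x, F x ≤ G x) : ∀ (n : ℕ) (x : X), (F ^ n) x ≤ (G ^ n) x
  | 0, x => by rw [pow_zero, pow_zero]
  | n + 1, x => by
    rw [pow_succ', pow_succ', Aut.mul_apply, Aut.mul_apply]
    exact ((Aut.le_iff _).mpr (pow_le_pow_of h n x)).trans (h _)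

theorem pow_lt_pow_of (h : ∀ x, F x < G x) {n : ℕ} (hn : 1 ≤ n) (x : X) :
    (F ^ n) x < (G ^ n) x := by
  obtain ⟨n, rfl⟩ := Nat.exists_eq_add_of_le' hn
  rw [pow_succ', pow_succ', Aut.mul_apply, Aut.mul_apply]
  exact lt_of_le_of_lt ((Aut.le_iff _).mpr (pow_le_pow_of (fun x => (h x).le) n x)) (h _)

end pow

section side

variable {V E C : Type} {v₁ v₂ : C → V} {e₁ e₂ : C → E} {p q : V} {a b : E}
  {star : V → List (C × Bool)} {star' : E → List (C × Bool)}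

/-- the current at a corner -/
def cur {X : Type*} [LinearOrder X] (e₁ e₂ : C → E) (h : E → Aut X) (k : C × Bool) : Aut X :=
  (h (cOpp e₁ e₂ k))⁻¹ * h (cAt e₁ e₂ k)

/-- the voltage at a corner -/
def vol {X : Type*} [LinearOrder X] (v₁ v₂ : C → V) (f : V → Aut X) (k : C × Bool) : Aut X :=
  (f (cAt v₁ v₂ k))⁻¹ * f (cOpp v₁ v₂ k)

variable {X : Type*} [LinearOrder X] {f : V → Aut X} {h : E → Aut X}

theorem SRel.iff (hr : SRel v₁ v₂ e₁ e₂ f h) (k : C × Bool) (x : X) :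
    (cur e₁ e₂ h k x ≤ x ↔ vol v₁ v₂ f k x ≤ x) ∧ (x ≤ cur e₁ e₂ h k x ↔ x ≤ vol v₁ v₂ f k x) := by
  obtain ⟨h1, h2⟩ := hr k x
  exact ⟨by rw [cur, vol, h1, Aut.inv_mul_le], by rw [cur, vol, h2, Aut.le_inv_mul]⟩

/-- Pointwise bounds for the voltages. -/
structure PB (f : V → Aut X) (p q : V) : Prop where
  base : f p = 1
  pos : ∀ v, v ≠ p → ∀ x, x < f v x
  lt : ∀ v, v ≠ q → ∀ x, f v x < f q x

theorem PB.one_le (hf : PB f p q) (v : V) (x : X) : x ≤ f v x := by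
  classical
  by_cases hv : v = p
  · rw [hv, hf.base, Aut.one_apply]
  · exact (hf.pos v hv x).le

theorem PB.le (hf : PB f p q) (v : V) (x : X) : f v x ≤ f q x := by
  classical
  by_cases hv : v = q
  · rw [hv]
  · exact (hf.lt v hv x).le

theorem PB.vol_le (hf : PB f p q) (k : C × Bool) (x : X) : vol v₁ v₂ f k x ≤ f q x := by
  rw [vol, Aut.mul_apply]
  refine le_trans ?_ (hf.le (cOpp v₁ v₂ k) x)
  rw [← Aut.le_iff (f (cAt v₁ v₂ k)), Aut.self_inv]
  exact hf.one_le _ _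

theorem PB.vol_lt (hf : PB f p q) {k : C × Bool} (hk : cAt v₁ v₂ k ≠ p ∨ cOpp v₁ v₂ k ≠ q)
    (x : X) : vol v₁ v₂ f k x < f q x := by
  rw [vol, Aut.mul_apply]
  rcases hk with hk | hk
  · refine lt_of_lt_of_le ?_ (hf.le (cOpp v₁ v₂ k) x)
    rw [← Aut.lt_iff (f (cAt v₁ v₂ k)), Aut.self_inv]
    exact hf.pos _ hk _
  · refine lt_of_le_of_lt ?_ (hf.lt _ hk x)
    rw [← Aut.le_iff (f (cAt v₁ v₂ k)), Aut.self_inv]
    exact hf.one_le _ _

variable (S : Side v₁ v₂ e₁ e₂ p q a b star) (hr : SRel v₁ v₂ e₁ e₂ f h) (hf : PB f p q)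
  (hh : PB h a b)

include S hr hf in
theorem cur_pos {k : C × Bool} (hk : k ∈ star p) (x : X) : x < cur e₁ e₂ h k x := by
  rw [← not_le, (hr.iff k x).1, not_le, vol, (S.mem p k).mp hk, hf.base, inv_one, one_mul]
  exact hf.pos _ (S.opp_ne hk) x

include S hr hf hh

/-- The lower bound from the corners at `p` that face `q`. -/
theorem side_ge (m : C → ℤ) (hm : ∀ k ∈ star p, m k.1 ≤ 0 ∨
    ∀ x, (f q ^ m k.1) x ≤ cur e₁ e₂ h k x) (x : X) :
    (f q ^ ((star p).map fun k => m k.1).sum) x ≤ h b x := by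
  have h1 := path_prod h _ _ _ S.first
  rw [hh.base, inv_one, one_mul] at h1
  rw [← h1]
  refine list_ge (f q) (fun k : C × Bool => m k.1) (cur e₁ e₂ h) (star p) (fun k hk x => ?_) x
  rcases hm k hk with h2 | h2
  · refine le_trans ?_ (cur_pos S hr hf hk x).le
    have := zpow_le_zpow' (z := f q) (hf.pos q S.ne.symm) h2 x
    rwa [zpow_zero, Aut.one_apply] at this
  · exact h2 x

theorem side_gt (m : C → ℤ) (hm : ∀ k ∈ star p, m k.1 ≤ 0 ∨
    ∀ x, (f q ^ m k.1) x ≤ cur e₁ e₂ h k x)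
    (hs : ∃ k ∈ star p, m k.1 ≤ 0 ∨ ∀ x, (f q ^ m k.1) x < cur e₁ e₂ h k x) (x : X) :
    (f q ^ ((star p).map fun k => m k.1).sum) x < h b x := by
  have h1 := path_prod h _ _ _ S.first
  rw [hh.base, inv_one, one_mul] at h1
  rw [← h1]
  refine list_gt (f q) (fun k : C × Bool => m k.1) (cur e₁ e₂ h) (star p) (fun k hk x => ?_) ?_ x
  · rcases hm k hk with h2 | h2
    · refine le_trans ?_ (cur_pos S hr hf hk x).le
      have := zpow_le_zpow' (z := f q) (hf.pos q S.ne.symm) h2 x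
      rwa [zpow_zero, Aut.one_apply] at this
    · exact h2 x
  · obtain ⟨k, hk, h2⟩ := hs
    refine ⟨k, hk, fun x => ?_⟩
    rcases h2 with h2 | h2
    · refine lt_of_le_of_lt ?_ (cur_pos S hr hf hk x)
      have := zpow_le_zpow' (z := f q) (hf.pos q S.ne.symm) h2 x
      rwa [zpow_zero, Aut.one_apply] at this
    · exact h2 x

omit hh

theorem corner_le {n : ℤ} (hn : 0 ≤ n) {k : C × Bool}
    (hk : ∀ x, x < vol v₁ v₂ f k x → cur e₁ e₂ h k x ≤ (vol v₁ v₂ f k ^ n) x) (x : X) :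
    cur e₁ e₂ h k x ≤ (f q ^ n) x := by
  obtain ⟨n, rfl⟩ := Int.eq_ofNat_of_zero_le hn
  rcases lt_or_ge x (vol v₁ v₂ f k x) with h1 | h1
  · refine (hk x h1).trans ?_
    rw [zpow_natCast, zpow_natCast]
    exact pow_le_pow_of (hf.vol_le k) n x
  · refine ((hr.iff k x).1.mpr h1).trans ?_
    rw [zpow_natCast]
    exact self_le_pow (hf.pos q S.ne.symm x).le n

theorem corner_lt {n : ℤ} (hn : 1 ≤ n) {k : C × Bool}
    (hk : ∀ x, x < vol v₁ v₂ f k x → cur e₁ e₂ h k x ≤ (vol v₁ v₂ f k ^ n) x)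
    (hs : (∀ x, x < vol v₁ v₂ f k x → cur e₁ e₂ h k x < (vol v₁ v₂ f k ^ n) x) ∨
      cAt v₁ v₂ k ≠ p ∨ cOpp v₁ v₂ k ≠ q) (x : X) :
    cur e₁ e₂ h k x < (f q ^ n) x := by
  obtain ⟨n, rfl⟩ := Int.eq_ofNat_of_zero_le (zero_le_one.trans hn)
  have hn' : 1 ≤ n := by omega
  rcases lt_or_ge x (vol v₁ v₂ f k x) with h1 | h1
  · rcases hs with hs | hs
    · refine lt_of_lt_of_le (hs x h1) ?_
      rw [zpow_natCast, zpow_natCast]
      exact pow_le_pow_of (hf.vol_le k) n x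
    · refine lt_of_le_of_lt (hk x h1) ?_
      rw [zpow_natCast, zpow_natCast]
      exact pow_lt_pow_of (hf.vol_lt hs) hn' x
  · refine lt_of_le_of_lt ((hr.iff k x).1.mpr h1) ?_
    rw [zpow_natCast]
    exact self_lt_pow (hf.pos q S.ne.symm x) hn'

include hh

/-- The upper bound from a path from `a` to `b`. -/
theorem side_le (m : C → ℤ) {l : List (C × Bool)} (hl : Path e₁ e₂ a l b)
    (hm : ∀ k ∈ l, 0 ≤ m k.1 ∧
      ∀ x, x < vol v₁ v₂ f k x → cur e₁ e₂ h k x ≤ (vol v₁ v₂ f k ^ m k.1) x) (x : X) :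
    h b x ≤ (f q ^ (l.map fun k => m k.1).sum) x := by
  have h1 := path_prod h _ _ _ hl
  rw [hh.base, inv_one, one_mul] at h1
  rw [← h1]
  exact list_le' (f q) (fun k : C × Bool => m k.1) (cur e₁ e₂ h) l
    (fun k hk x => corner_le S hr hf (hm k hk).1 (hm k hk).2 x) x

theorem side_lt (m : C → ℤ) {l : List (C × Bool)} (hl : Path e₁ e₂ a l b)
    (hm : ∀ k ∈ l, 0 ≤ m k.1 ∧
      ∀ x, x < vol v₁ v₂ f k x → cur e₁ e₂ h k x ≤ (vol v₁ v₂ f k ^ m k.1) x)
    (hs : ∃ k ∈ l, 1 ≤ m k.1 ∧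
      ((∀ x, x < vol v₁ v₂ f k x → cur e₁ e₂ h k x < (vol v₁ v₂ f k ^ m k.1) x) ∨
      cAt v₁ v₂ k ≠ p ∨ cOpp v₁ v₂ k ≠ q)) (x : X) :
    h b x < (f q ^ (l.map fun k => m k.1).sum) x := by
  have h1 := path_prod h _ _ _ hl
  rw [hh.base, inv_one, one_mul] at h1
  rw [← h1]
  refine list_lt' (f q) (fun k : C × Bool => m k.1) (cur e₁ e₂ h) l
    (fun k hk x => corner_le S hr hf (hm k hk).1 (hm k hk).2 x) ?_ x
  obtain ⟨k, hk, h2, h3⟩ := hs
  exact ⟨k, hk, corner_lt S hr hf h2 (hm k hk).2 h3⟩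

end side

end Pool.Agent.Q184.PT
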