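import Pool.Agent.Q184.PT.Side

set_option autoImplicit false
set_option linter.unusedSectionVars false

/-!
# Boxes inserted in an alternating diagram
-/

namespace Pool.Agent.Q184.PT

open Pool.Agent.Y479.LS

namespace Box

section from_

variable {V : Box} {X : Type} [LinearOrder X]

/-- The pair `G`, `F` of automorphisms is the pair `g`, `A` of the box `V`, or both are inverted. -/
def From (V : Box) (ψ : V.G →* Aut X) (G F : Aut X) : Prop :=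
  (G = ψ V.g ∧ F = ψ V.A) ∨ (G = (ψ V.g)⁻¹ ∧ F = (ψ V.A)⁻¹)

variable {ψ : V.G →* Aut X} {G F : Aut X}

theorem dual_pos (hv : ∀ x, x < (ψ V.g)⁻¹ x) (z : Xᵒᵈ) : z < (Aut.dual.comp ψ) V.g z := by
  show ψ V.g (OrderDual.ofDual z) < OrderDual.ofDual z
  have h3 := hv (ψ V.g (OrderDual.ofDual z))
  rwa [Aut.inv_self] at h3

theorem From.ge (H : From V ψ G F) {n : ℤ} (h : V.Ge n) (hv : ∀ x, x < G x) (x : X) :
    (G ^ n) x ≤ F x := by
  rcases H with ⟨rfl, rfl⟩ | ⟨rfl, rfl⟩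
  · rw [← map_zpow]
    exact h X ψ hv x
  · rw [inv_zpow, ← map_zpow]
    refine inv_le_inv' (fun y => ?_) x
    exact h Xᵒᵈ (Aut.dual.comp ψ) (dual_pos hv) (OrderDual.toDual y)

theorem From.gt (H : From V ψ G F) {n : ℤ} (h : V.Gt n) (hv : ∀ x, x < G x) (x : X) :
    (G ^ n) x < F x := by
  rcases H with ⟨rfl, rfl⟩ | ⟨rfl, rfl⟩
  · rw [← map_zpow]
    exact h X ψ hv x
  · rw [inv_zpow, ← map_zpow]
    refine inv_lt_inv' (fun y => ?_) x
    exact h Xᵒᵈ (Aut.dual.comp ψ) (dual_pos hv) (OrderDual.toDual y)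

theorem From.le (H : From V ψ G F) (hf : V.Fix) {n : ℤ} (h : V.mirror.Ge (-n)) {x : X}
    (hx : x < G x) : F x ≤ (G ^ n) x := by
  have h' : ∀ (X : Type) [LinearOrder X] (ψ : V.G →* Aut X), (∀ x, x < ψ V.g x) →
      ∀ x, ψ (V.g ^ (-n)) x ≤ ψ V.A⁻¹ x := h
  rcases H with ⟨rfl, rfl⟩ | ⟨rfl, rfl⟩
  · rw [← map_zpow]
    refine localize_le hf (fun X _ ψ hψ x => ?_) ψ hx
    have h2 := inv_le_inv' (h' X ψ hψ) x
    rwa [map_inv, inv_inv, zpow_neg, map_inv, inv_inv] at h2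
  · rw [inv_zpow', ← map_zpow, ← map_inv]
    refine localize_le' hf h' ψ ?_
    rwa [← Aut.lt_iff (ψ V.g), Aut.self_inv] at hx

theorem From.lt (H : From V ψ G F) (hf : V.Fix) {n : ℤ} (h : V.mirror.Gt (-n)) {x : X}
    (hx : x < G x) : F x < (G ^ n) x := by
  have h' : ∀ (X : Type) [LinearOrder X] (ψ : V.G →* Aut X), (∀ x, x < ψ V.g x) →
      ∀ x, ψ (V.g ^ (-n)) x < ψ V.A⁻¹ x := h
  rcases H with ⟨rfl, rfl⟩ | ⟨rfl, rfl⟩
  · rw [← map_zpow]
    refine localize_lt hf (fun X _ ψ hψ x => ?_) ψ hx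
    have h2 := inv_lt_inv' (h' X ψ hψ) x
    rwa [map_inv, inv_inv, zpow_neg, map_inv, inv_inv] at h2
  · rw [inv_zpow', ← map_zpow, ← map_inv]
    refine localize_lt' hf h' ψ ?_
    rwa [← Aut.lt_iff (ψ V.g), Aut.self_inv] at hx

end from_

section subst

variable (T : Tangle) (U : T.C → Box)

/-- the element of a white region -/
def wm (v : T.W) : (subst T U).G := val (relators T U) (w T U v)
/-- the element of a black region -/
def bm (v : T.B) : (subst T U).G := val (relators T U) (b T U v)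
/-- the group of the box at `c` -/
def em (c : T.C) : (U c).G →* (subst T U).G := Am.emb (R := relators T U) c

theorem rel_w (c : T.C) : (wm T U (T.w₁ c))⁻¹ * wm T U (T.w₂ c) = em T U c (U c).g := by
  have h : val (relators T U)
      ((w T U (T.w₁ c))⁻¹ * w T U (T.w₂ c) * (elt U c (U c).g)⁻¹) = 1 := Am.rel (Or.inl ⟨c, rfl⟩)
  rw [map_mul, map_mul, map_inv, map_inv, mul_inv_eq_one] at h
  exact h

theorem rel_b (c : T.C) : (bm T U (T.b₂ c))⁻¹ * bm T U (T.b₁ c) = em T U c (U c).A := by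
  have h : val (relators T U)
      ((b T U (T.b₂ c))⁻¹ * b T U (T.b₁ c) * (elt U c (U c).A)⁻¹) = 1 :=
    Am.rel (Or.inr (Or.inl ⟨c, rfl⟩))
  rw [map_mul, map_mul, map_inv, map_inv, mul_inv_eq_one] at h
  exact h

theorem rel_west : wm T U T.west = 1 := Am.rel (R := relators T U) (Or.inr (Or.inr (Or.inl rfl)))

theorem rel_north : bm T U T.north = 1 :=
  Am.rel (R := relators T U) (Or.inr (Or.inr (Or.inr rfl)))

variable {T U}

section act

variable {X : Type} [LinearOrder X] (φ : (subst T U).G →* Aut X)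

/-- the action of the white regions -/
def fw (v : T.W) : Aut X := φ (wm T U v)
/-- the action of the black regions -/
def fb (v : T.B) : Aut X := φ (bm T U v)

theorem fw_rel (c : T.C) : (fw φ (T.w₁ c))⁻¹ * fw φ (T.w₂ c) = φ (em T U c (U c).g) := by
  rw [← rel_w, map_mul, map_inv]; rfl

theorem fb_rel (c : T.C) : (fb φ (T.b₂ c))⁻¹ * fb φ (T.b₁ c) = φ (em T U c (U c).A) := by
  rw [← rel_b, map_mul, map_inv]; rfl

theorem srel (hU : ∀ c, (U c).Fix ∧ (U c).Gt 0) :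
    SRel T.w₁ T.w₂ T.b₁ T.b₂ (fw φ) (fb φ) := by
  rintro ⟨c, s⟩ x
  have h := sign (hU c).1 (hU c).2 (φ.comp (em T U c)) x
  rw [MonoidHom.comp_apply, MonoidHom.comp_apply, ← fw_rel, ← fb_rel, Aut.inv_mul_le,
    Aut.inv_mul_le, Aut.le_inv_mul, Aut.le_inv_mul] at h
  cases s
  · refine ⟨?_, ?_⟩
    · show ((fb φ (T.b₂ c))⁻¹ * fb φ (T.b₁ c)) x ≤ x ↔ _
      rw [Aut.inv_mul_le]; exact h.1
    · show x ≤ ((fb φ (T.b₂ c))⁻¹ * fb φ (T.b₁ c)) x ↔ _
      rw [Aut.le_inv_mul]; exact h.2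
  · refine ⟨?_, ?_⟩
    · show ((fb φ (T.b₁ c))⁻¹ * fb φ (T.b₂ c)) x ≤ x ↔ _
      rw [Aut.inv_mul_le]; exact h.2
    · show x ≤ ((fb φ (T.b₁ c))⁻¹ * fb φ (T.b₂ c)) x ↔ _
      rw [Aut.le_inv_mul]; exact h.1

theorem fw_west : fw φ T.west = 1 := by rw [fw, rel_west, map_one]
theorem fb_north : fb φ T.north = 1 := by rw [fb, rel_north, map_one]

theorem pb (hU : ∀ c, (U c).Fix ∧ (U c).Gt 0) (hpos : ∀ x, x < φ (subst T U).g x) :
    PB (fw φ) T.west T.east ∧ PB (fb φ) T.north T.south := by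
  obtain ⟨h1, h2, h3, h4⟩ := bounds (srel φ hU) (fw_west φ) (fb_north φ) hpos
  exact ⟨⟨fw_west φ, h1, h2⟩, ⟨fb_north φ, h3, h4⟩⟩

theorem pb' (hU : ∀ c, (U c).Fix ∧ (U c).Gt 0) (hpos : ∀ x, x < φ (subst T U).A x) :
    PB (fw φ) T.west T.east ∧ PB (fb φ) T.north T.south := by
  have := T.finW
  have := T.finB
  refine pb φ hU fun x => ?_
  by_contra hcon
  push Not at hcon
  have h1 : fw φ T.east x ≤ fw φ T.west x := by rw [fw_west, Aut.one_apply]; exact hcon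
  have h2 := current_aux T.white (srel φ hU) x h1
  rw [fb_north, Aut.one_apply] at h2
  exact absurd (hpos x) (not_lt.mpr h2)

theorem from_w (c : T.C) (s : Bool) : From (U c) (φ.comp (em T U c)) (vol T.w₁ T.w₂ (fw φ) (c, s))
    (cur T.b₁ T.b₂ (fb φ) (c, s)) := by
  cases s
  · exact Or.inl ⟨fw_rel φ c, fb_rel φ c⟩
  · refine Or.inr ⟨?_, ?_⟩
    · rw [MonoidHom.comp_apply, ← fw_rel φ c, mul_inv_rev, inv_inv]; rfl
    · rw [MonoidHom.comp_apply, ← fb_rel φ c, mul_inv_rev, inv_inv]; rfl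

theorem from_b (c : T.C) (s : Bool) : From (U c).swap (φ.comp (em T U c))
    (vol T.b₁ T.b₂ (fb φ) (c, s)) (cur T.w₁ T.w₂ (fw φ) (c, s)) := by
  cases s
  · refine Or.inr ⟨?_, ?_⟩
    · show _ = ((φ.comp (em T U c)) (U c).A)⁻¹
      rw [MonoidHom.comp_apply, ← fb_rel φ c, mul_inv_rev, inv_inv]; rfl
    · show _ = ((φ.comp (em T U c)) (U c).g)⁻¹
      rw [MonoidHom.comp_apply, ← fw_rel φ c, mul_inv_rev, inv_inv]; rfl
  · exact Or.inl ⟨fb_rel φ c, fw_rel φ c⟩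

end act

theorem subst_fix (hU : ∀ c, (U c).Fix ∧ (U c).Gt 0) : (subst T U).Fix := by
  intro X _ φ x hx γ
  have h := fix (srel φ hU) (x := x) (by
    rw [fw_west, Aut.one_apply]; exact hx.symm)
  rw [fw_west, fb_north, Aut.one_apply] at h
  refine Am.fix (R := relators T U) φ x (fun y => ?_) (fun c γ => ?_) γ
  · rcases y with v | v
    · exact h.1 v
    · exact h.2 v
  · refine (hU c).1 X (φ.comp (em T U c)) x ?_ γ
    rw [MonoidHom.comp_apply, ← fw_rel, Aut.inv_mul_eq, h.1, h.1]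

/-- Lower bound for the current: white regions. -/
theorem subst_ge (hU : ∀ c, (U c).Fix ∧ (U c).Gt 0) (m : T.C → ℤ)
    (hm : ∀ k ∈ T.starW T.west, m k.1 ≤ 0 ∨
      (cOpp T.w₁ T.w₂ k = T.east ∧ (U k.1).Ge (m k.1))) :
    (subst T U).Ge ((T.starW T.west).map fun k => m k.1).sum := by
  intro X _ φ hpos x
  obtain ⟨h1, h2⟩ := pb φ hU hpos
  have := side_ge T.white (srel φ hU) h1 h2 m (fun k hk => (hm k hk).imp_right ?_) x
  · rw [map_zpow]; exact this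
  · rintro ⟨h3, h4⟩ x
    have e : vol T.w₁ T.w₂ (fw φ) k = fw φ T.east := by
      rw [vol, (T.white.mem _ _).mp hk, h1.base, h3, inv_one, one_mul]
    rw [← e]
    exact (from_w φ k.1 k.2).ge h4 (fun x => by
      show x < vol T.w₁ T.w₂ (fw φ) k x
      rw [e]; exact hpos x) x

theorem subst_gt (hU : ∀ c, (U c).Fix ∧ (U c).Gt 0) (m : T.C → ℤ)
    (hm : ∀ k ∈ T.starW T.west, m k.1 ≤ 0 ∨
      (cOpp T.w₁ T.w₂ k = T.east ∧ (U k.1).Ge (m k.1)))
    (hs : ∃ k ∈ T.starW T.west, m k.1 ≤ 0 ∨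
      (cOpp T.w₁ T.w₂ k = T.east ∧ (U k.1).Gt (m k.1))) :
    (subst T U).Gt ((T.starW T.west).map fun k => m k.1).sum := by
  intro X _ φ hpos x
  obtain ⟨h1, h2⟩ := pb φ hU hpos
  have hv : ∀ k ∈ T.starW T.west, cOpp T.w₁ T.w₂ k = T.east →
      vol T.w₁ T.w₂ (fw φ) k = fw φ T.east := fun k hk h3 => by
    rw [vol, (T.white.mem _ _).mp hk, h1.base, h3, inv_one, one_mul]
  have := side_gt T.white (srel φ hU) h1 h2 m (fun k hk => (hm k hk).imp_right ?_) ?_ x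
  · rw [map_zpow]; exact this
  · rintro ⟨h3, h4⟩ x
    rw [← hv k hk h3]
    exact (from_w φ k.1 k.2).ge h4 (fun x => by
      show x < vol T.w₁ T.w₂ (fw φ) k x
      rw [hv k hk h3]; exact hpos x) x
  · obtain ⟨k, hk, h3⟩ := hs
    refine ⟨k, hk, h3.imp_right ?_⟩
    rintro ⟨h3, h4⟩ x
    rw [← hv k hk h3]
    exact (from_w φ k.1 k.2).gt h4 (fun x => by
      show x < vol T.w₁ T.w₂ (fw φ) k x
      rw [hv k hk h3]; exact hpos x) x

theorem subst_gt0 (hU : ∀ c, (U c).Fix ∧ (U c).Gt 0) : (subst T U).Gt 0 := by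
  have hne : T.starW T.west ≠ [] := by
    intro h
    have h1 := T.white.first
    rw [h] at h1
    exact T.black.ne h1
  obtain ⟨k, hk⟩ := List.exists_mem_of_ne_nil _ hne
  have := subst_gt hU (fun _ => 0) (fun k _ => Or.inl le_rfl) ⟨k, hk, Or.inl le_rfl⟩
  simpa using this

theorem subst_le (hU : ∀ c, (U c).Fix ∧ (U c).Gt 0) (m : T.C → ℤ) {l : List (T.C × Bool)}
    (hl : Path T.b₁ T.b₂ T.north l T.south)
    (hm : ∀ k ∈ l, 0 ≤ m k.1 ∧ (U k.1).mirror.Ge (-m k.1)) :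
    (subst T U).mirror.Ge (-(l.map fun k => m k.1).sum) := by
  intro X _ φ hpos x
  let ψ : (subst T U).G →* Aut X := φ
  obtain ⟨h1, h2⟩ := pb ψ hU hpos
  have := side_le T.white (srel ψ hU) h1 h2 m hl (fun k hk => ⟨(hm k hk).1, fun x hx =>
    (from_w ψ k.1 k.2).le (hU k.1).1 (hm k hk).2 hx⟩)
  show ψ ((subst T U).g ^ (-(l.map fun k => m k.1).sum)) x ≤ ψ (subst T U).A⁻¹ x
  rw [zpow_neg, map_inv, map_inv, map_zpow]
  exact inv_le_inv' this x

theorem subst_lt (hU : ∀ c, (U c).Fix ∧ (U c).Gt 0) (m : T.C → ℤ) {l : List (T.C × Bool)}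
    (hl : Path T.b₁ T.b₂ T.north l T.south)
    (hm : ∀ k ∈ l, 0 ≤ m k.1 ∧ (U k.1).mirror.Ge (-m k.1))
    (hs : ∃ k ∈ l, 1 ≤ m k.1 ∧ ((U k.1).mirror.Gt (-m k.1) ∨
      cAt T.w₁ T.w₂ k ≠ T.west ∨ cOpp T.w₁ T.w₂ k ≠ T.east)) :
    (subst T U).mirror.Gt (-(l.map fun k => m k.1).sum) := by
  intro X _ φ hpos x
  let ψ : (subst T U).G →* Aut X := φ
  obtain ⟨h1, h2⟩ := pb ψ hU hpos
  have := side_lt T.white (srel ψ hU) h1 h2 m hl (fun k hk => ⟨(hm k hk).1, fun x hx =>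
    (from_w ψ k.1 k.2).le (hU k.1).1 (hm k hk).2 hx⟩) (by
      obtain ⟨k, hk, h3, h4⟩ := hs
      exact ⟨k, hk, h3, h4.imp_left fun h5 x hx => (from_w ψ k.1 k.2).lt (hU k.1).1 h5 hx⟩)
  show ψ ((subst T U).g ^ (-(l.map fun k => m k.1).sum)) x < ψ (subst T U).A⁻¹ x
  rw [zpow_neg, map_inv, map_inv, map_zpow]
  exact inv_lt_inv' this x

/-- Lower bound for the voltage: black regions. -/
theorem swap_ge (hU : ∀ c, (U c).Fix ∧ (U c).Gt 0) (m : T.C → ℤ)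
    (hm : ∀ k ∈ T.starB T.north, m k.1 ≤ 0 ∨
      (cOpp T.b₁ T.b₂ k = T.south ∧ (U k.1).swap.Ge (m k.1))) :
    (subst T U).swap.Ge ((T.starB T.north).map fun k => m k.1).sum := by
  intro X _ φ hpos x
  let ψ : (subst T U).G →* Aut X := φ
  obtain ⟨h1, h2⟩ := pb' ψ hU hpos
  have := side_ge T.black (srel ψ hU).swap h2 h1 m (fun k hk => (hm k hk).imp_right ?_) x
  · show ψ ((subst T U).A ^ ((T.starB T.north).map fun k => m k.1).sum) x ≤ ψ (subst T U).g x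
    rw [map_zpow]; exact this
  · rintro ⟨h3, h4⟩ x
    have e : vol T.b₁ T.b₂ (fb ψ) k = fb ψ T.south := by
      rw [vol, (T.black.mem _ _).mp hk, h2.base, h3, inv_one, one_mul]
    rw [← e]
    exact (from_b ψ k.1 k.2).ge h4 (fun x => by
      show x < vol T.b₁ T.b₂ (fb ψ) k x
      rw [e]; exact hpos x) x

theorem swap_gt' (hU : ∀ c, (U c).Fix ∧ (U c).Gt 0) (m : T.C → ℤ)
    (hm : ∀ k ∈ T.starB T.north, m k.1 ≤ 0 ∨
      (cOpp T.b₁ T.b₂ k = T.south ∧ (U k.1).swap.Ge (m k.1)))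
    (hs : ∃ k ∈ T.starB T.north, m k.1 ≤ 0 ∨
      (cOpp T.b₁ T.b₂ k = T.south ∧ (U k.1).swap.Gt (m k.1))) :
    (subst T U).swap.Gt ((T.starB T.north).map fun k => m k.1).sum := by
  intro X _ φ hpos x
  let ψ : (subst T U).G →* Aut X := φ
  obtain ⟨h1, h2⟩ := pb' ψ hU hpos
  have hv : ∀ k ∈ T.starB T.north, cOpp T.b₁ T.b₂ k = T.south →
      vol T.b₁ T.b₂ (fb ψ) k = fb ψ T.south := fun k hk h3 => by
    rw [vol, (T.black.mem _ _).mp hk, h2.base, h3, inv_one, one_mul]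
  have := side_gt T.black (srel ψ hU).swap h2 h1 m (fun k hk => (hm k hk).imp_right ?_) ?_ x
  · show ψ ((subst T U).A ^ ((T.starB T.north).map fun k => m k.1).sum) x < ψ (subst T U).g x
    rw [map_zpow]; exact this
  · rintro ⟨h3, h4⟩ x
    rw [← hv k hk h3]
    exact (from_b ψ k.1 k.2).ge h4 (fun x => by
      show x < vol T.b₁ T.b₂ (fb ψ) k x
      rw [hv k hk h3]; exact hpos x) x
  · obtain ⟨k, hk, h3⟩ := hs
    refine ⟨k, hk, h3.imp_right ?_⟩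
    rintro ⟨h3, h4⟩ x
    rw [← hv k hk h3]
    exact (from_b ψ k.1 k.2).gt h4 (fun x => by
      show x < vol T.b₁ T.b₂ (fb ψ) k x
      rw [hv k hk h3]; exact hpos x) x

theorem swap_le (hU : ∀ c, (U c).Fix ∧ (U c).Gt 0) (m : T.C → ℤ) {l : List (T.C × Bool)}
    (hl : Path T.w₁ T.w₂ T.west l T.east)
    (hm : ∀ k ∈ l, 0 ≤ m k.1 ∧ (U k.1).swap.mirror.Ge (-m k.1)) :
    (subst T U).swap.mirror.Ge (-(l.map fun k => m k.1).sum) := by
  intro X _ φ hpos x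
  let ψ : (subst T U).G →* Aut X := φ
  obtain ⟨h1, h2⟩ := pb' ψ hU hpos
  have := side_le T.black (srel ψ hU).swap h2 h1 m hl (fun k hk => ⟨(hm k hk).1, fun x hx =>
    (from_b ψ k.1 k.2).le (swap_fix (hU k.1).1 (hU k.1).2) (hm k hk).2 hx⟩)
  show ψ ((subst T U).A ^ (-(l.map fun k => m k.1).sum)) x ≤ ψ (subst T U).g⁻¹ x
  rw [zpow_neg, map_inv, map_inv, map_zpow]
  exact inv_le_inv' this x

theorem swap_lt (hU : ∀ c, (U c).Fix ∧ (U c).Gt 0) (m : T.C → ℤ) {l : List (T.C × Bool)}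
    (hl : Path T.w₁ T.w₂ T.west l T.east)
    (hm : ∀ k ∈ l, 0 ≤ m k.1 ∧ (U k.1).swap.mirror.Ge (-m k.1))
    (hs : ∃ k ∈ l, 1 ≤ m k.1 ∧ ((U k.1).swap.mirror.Gt (-m k.1) ∨
      cAt T.b₁ T.b₂ k ≠ T.north ∨ cOpp T.b₁ T.b₂ k ≠ T.south)) :
    (subst T U).swap.mirror.Gt (-(l.map fun k => m k.1).sum) := by
  intro X _ φ hpos x
  let ψ : (subst T U).G →* Aut X := φ
  obtain ⟨h1, h2⟩ := pb' ψ hU hpos
  have := side_lt T.black (srel ψ hU).swap h2 h1 m hl (fun k hk => ⟨(hm k hk).1, fun x hx =>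
    (from_b ψ k.1 k.2).le (swap_fix (hU k.1).1 (hU k.1).2) (hm k hk).2 hx⟩) (by
      obtain ⟨k, hk, h3, h4⟩ := hs
      exact ⟨k, hk, h3, h4.imp_left fun h5 x hx =>
        (from_b ψ k.1 k.2).lt (swap_fix (hU k.1).1 (hU k.1).2) h5 hx⟩)
  show ψ ((subst T U).A ^ (-(l.map fun k => m k.1).sum)) x < ψ (subst T U).g⁻¹ x
  rw [zpow_neg, map_inv, map_inv, map_zpow]
  exact inv_lt_inv' this x

end subst

end Box

end Pool.Agent.Q184.PT
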